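import Mathlib
import Pool.Agent.Results.MP_d9472f_gt.NoUniversalRealCurve

/-!
# Two weakly chainable real curves that are not images of a common real curve

The starting file `NoUniversalRealCurve` shows that for every real curve `X` some weakly chainable
real curve, depending on `X`, is not a continuous image of `X`.  Here the test curves are fixed:
there are two weakly chainable real curves in Euclidean space such that no continuous image of a
real curve can be mapped onto both of them.  In particular neither of the two can be mapped onto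
the other.
-/

set_option autoImplicit false
set_option linter.all false

open Set

namespace Pool.Agent.Results.MP_d9472f_gt.TwoCurves

open Pool.Agent.Results.MP_d9472f_gt.NoUniversalRealCurve

universe u v

/-- The topological space `X` can be mapped onto the topological space `Y`. -/
def MapsOnto (X : Type*) (Y : Type*) [TopologicalSpace X] [TopologicalSpace Y] : Prop :=
  ∃ g : X → Y, Continuous g ∧ Function.Surjective g

theorem MapsOnto.trans {X Y Z : Type*} [TopologicalSpace X] [TopologicalSpace Y]
    [TopologicalSpace Z] (h : MapsOnto X Y) (k : MapsOnto Y Z) : MapsOnto X Z := by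
  obtain ⟨f, hf, hf'⟩ := h
  obtain ⟨g, hg, hg'⟩ := k
  exact ⟨g ∘ f, hg.comp hf, hg'.comp hf'⟩

theorem MapsOnto.refl (X : Type*) [TopologicalSpace X] : MapsOnto X X :=
  ⟨id, continuous_id, Function.surjective_id⟩

theorem no_common' (X : Type u) [MetricSpace X] (hX : IsRealCurve X) :
    ¬ (MapsOnto X Y1 ∧ MapsOnto X Y2) := by
  rintro ⟨⟨g1, hg1, hs1⟩, ⟨g2, hg2, hs2⟩⟩
  obtain ⟨⟨hcomp, -⟩, f, hc, hi, hs⟩ := hX
  exact no_common hc hi hs hg1 hs1 hg2 hs2

/-- There are two weakly chainable real curves in a five dimensional real vector space such that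
no continuous image of a real curve can be mapped onto both of them; in particular no real curve
can be mapped onto both of them, and neither of them can be mapped onto the other. -/
theorem result : ∃ Y₁ Y₂ : Set (ℝ × (ℝ × ℝ) × (ℝ × ℝ)),
    IsRealCurve Y₁ ∧ WeaklyChainable Y₁ ∧ IsRealCurve Y₂ ∧ WeaklyChainable Y₂ ∧
    (∀ (X : Type u) [MetricSpace X], IsRealCurve X →
      ∀ (Z : Type v) [TopologicalSpace Z], MapsOnto X Z → ¬ (MapsOnto Z Y₁ ∧ MapsOnto Z Y₂)) ∧
    (∀ (X : Type u) [MetricSpace X], IsRealCurve X → ¬ (MapsOnto X Y₁ ∧ MapsOnto X Y₂)) ∧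
    ¬ MapsOnto Y₁ Y₂ ∧ ¬ MapsOnto Y₂ Y₁ := by
  refine ⟨range f1, range f2, realCurve_Y1, weaklyChainable_Y1, realCurve_Y2,
    weaklyChainable_Y2, ?_, ?_, ?_, ?_⟩
  · intro X _ hX Z _ hXZ hZ
    exact no_common' X hX ⟨hXZ.trans hZ.1, hXZ.trans hZ.2⟩
  · intro X _ hX
    exact no_common' X hX
  · intro h
    exact no_common' _ realCurve_Y1 ⟨MapsOnto.refl _, h⟩
  · intro h
    exact no_common' _ realCurve_Y2 ⟨h, MapsOnto.refl _⟩

end Pool.Agent.Results.MP_d9472f_gt.TwoCurves
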